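import Pool.Agent.H10.LDV.Stmts
import Pool.Agent.H49.RIC.WAA

/-!
# LDV, module LDR: the height at least a power of the radical, polynomial heights
-/

set_option autoImplicit false

namespace Pool.LDV

open Finset Pool.Agent.H98.ABCR Pool.SHA Pool.BL

namespace LDR

/-- pairs of bounded sum -/
theorem box (Y : ℝ) (hY : 0 ≤ Y) (F : Finset (ℕ × ℕ))
    (hF : ∀ v ∈ F, IsTri v ∧ (v.1 : ℝ) + v.2 ≤ Y) : (F.card : ℝ) ≤ Y ^ 2 := by
  have h1 : F ⊆ (Icc 1 ⌊Y⌋₊) ×ˢ (Icc 1 ⌊Y⌋₊) := by
    intro v hv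
    obtain ⟨⟨a1, a2, a3⟩, b⟩ := hF v hv
    have e1 : (0 : ℝ) < v.1 := by exact_mod_cast a1
    have e2 : (0 : ℝ) < v.2 := by exact_mod_cast a2
    rw [mem_product, mem_Icc, mem_Icc]
    exact ⟨⟨a1, Nat.le_floor (by linarith)⟩, ⟨a2, Nat.le_floor (by linarith)⟩⟩
  have h2 := card_le_card h1
  rw [card_product, Nat.card_Icc, Nat.add_sub_cancel] at h2
  have h3 : (⌊Y⌋₊ : ℝ) ≤ Y := Nat.floor_le hY
  have h4 : (F.card : ℝ) ≤ (⌊Y⌋₊ : ℝ) * ⌊Y⌋₊ := by exact_mod_cast h2
  have h5 : (0 : ℝ) ≤ (⌊Y⌋₊ : ℝ) := Nat.cast_nonneg _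
  nlinarith

end LDR

/-- **LDR**. -/
theorem ldr_thm (h1 : S_LDW) : S_LDR := by
  classical
  intro θ κ ε h13 hθκ hκ hε
  obtain ⟨θ', hθ'⟩ : ∃ t, t = max (θ - ε / 4) (1 / 3) := ⟨_, rfl⟩
  have ht1 : 1 / 3 ≤ θ' := by rw [hθ']; exact le_max_right _ _
  have ht2 : θ - ε / 4 ≤ θ' := by rw [hθ']; exact le_max_left _ _
  have ht3 : θ' ≤ θ := by rw [hθ']; exact max_le (by linarith) h13
  obtain ⟨C, hC, hW⟩ := h1 θ' κ (ε / 4) ht1 (ht3.trans hθκ) hκ (by linarith)
  obtain ⟨E, hE⟩ : ∃ t, t = max (1 - θ) (3 / 5) := ⟨_, rfl⟩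
  have hE1 : 1 - θ ≤ E := by rw [hE]; exact le_max_left _ _
  have hE2 : 3 / 5 ≤ E := by rw [hE]; exact le_max_right _ _
  obtain ⟨Y, hY⟩ : ∃ t : ℝ, t = Real.exp (κ * (4 * θ * Real.log 2 / ε)) := ⟨_, rfl⟩
  have hY0 : 0 < Y := by rw [hY]; exact Real.exp_pos _
  obtain ⟨M, hM⟩ : ∃ t : ℝ, t = (C + 1 + Y ^ 2) * (2 : ℝ) ^ (E + ε / 2) := ⟨_, rfl⟩
  have h2p : 1 ≤ (2 : ℝ) ^ (E + ε / 2) := Real.one_le_rpow (by norm_num) (by linarith)
  have hM1 : 1 ≤ M := by
    rw [hM]
    have : 1 ≤ C + 1 + Y ^ 2 := by nlinarith [sq_nonneg Y]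
    nlinarith
  have hCC : 1 ≤ (2 / (ε / 2) + 1) * M := by
    have : 0 ≤ 2 / (ε / 2) := by positivity
    nlinarith
  refine ⟨(2 / (ε / 2) + 1) * M, hCC, ?_⟩
  intro X F hX hF
  have hX0 : 0 < X := by linarith
  have key := Pool.RIC.WAA.dya (E + ε / 2) (ε / 2) M X (by linarith) (by linarith) hX F
    (fun v hv => (hF v hv).2.1) (by
    intro j hj
    obtain ⟨Z, hZ⟩ : ∃ Z : ℝ, Z = (2 : ℝ) ^ (j + 1) := ⟨_, rfl⟩
    have hZ1 : 1 ≤ Z := by
      rw [hZ]
      exact one_le_pow₀ (by norm_num)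
    have hZ0 : 0 < Z := by linarith
    have hlZ : 0 ≤ Real.log Z := Real.log_nonneg hZ1
    have hZX : Z ≤ 2 * X := by
      have h6 : 2 ^ j ≤ ⌊X⌋₊ := by
        refine le_trans (Nat.pow_le_pow_right (by norm_num) hj) (Nat.pow_log_le_self 2 ?_)
        have : 1 ≤ ⌊X⌋₊ := Nat.le_floor (by exact_mod_cast hX)
        omega
      have h7 : ((2 : ℝ)) ^ j ≤ X := le_trans (by exact_mod_cast h6) (Nat.floor_le hX0.le)
      rw [hZ, pow_succ]
      linarith
    have hZE : 1 ≤ Z ^ (E + ε / 2) := Real.one_le_rpow hZ1 (by linarith)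
    have base : ∀ v ∈ F, Nat.log 2 (RR v) = j →
        IsTri v ∧ (RR v : ℝ) ≤ Z ∧ θ * (Real.log Z - Real.log 2) ≤ hh v ∧
          hh v ≤ κ * Real.log Z := by
      intro v hv hvj
      obtain ⟨t1, t2, t3, t4⟩ := hF v hv
      have hR0 : 0 < RR v := Pool.RIC.WAA.rad_pos _
      have hR0' : (0 : ℝ) < RR v := by exact_mod_cast hR0
      have h5 : RR v < 2 ^ (j + 1) := by
        rw [← hvj]
        exact Nat.lt_pow_succ_log_self (by norm_num) _
      have h6 : 2 ^ j ≤ RR v := by
        rw [← hvj]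
        exact Nat.pow_log_le_self 2 (by omega)
      have h5' : (RR v : ℝ) ≤ Z := by
        rw [hZ]
        exact_mod_cast h5.le
      have h6' : Z / 2 ≤ (RR v : ℝ) := by
        have h7 : (2 : ℝ) ^ j ≤ (RR v : ℝ) := by exact_mod_cast h6
        rw [hZ, pow_succ]
        linarith
      have h7 : Real.log Z - Real.log 2 ≤ Real.log (RR v) := by
        rw [← Real.log_div hZ0.ne' (by norm_num)]
        exact Real.log_le_log (by positivity) h6'
      refine ⟨t1, h5', ?_, ?_⟩
      · exact (mul_le_mul_of_nonneg_left h7 (by linarith)).trans t3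
      · exact t4.trans (mul_le_mul_of_nonneg_left (Real.log_le_log hR0' h5') (by linarith))
    have hsum : ∀ v : ℕ × ℕ, IsTri v → (v.1 : ℝ) + v.2 = Real.exp (hh v) := by
      intro v hv
      have : (0 : ℝ) < ((v.1 + v.2 : ℕ) : ℝ) := by
        have := hv.1
        exact_mod_cast (by omega : 0 < v.1 + v.2)
      rw [hh, Real.exp_log this]
      push_cast
      ring
    have e3 : ((F.filter (fun v => Nat.log 2 (RR v) = j)).card : ℝ) ≤
        (C + 1 + Y ^ 2) * Z ^ (E + ε / 2) := by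
      by_cases hbig : θ * Real.log 2 ≤ ε / 4 * Real.log Z
      · -- large `Z`
        have eA : ((F.filter (fun v => Nat.log 2 (RR v) = j ∧
            θ' * Real.log Z ≤ hh v)).card : ℝ) ≤ C * Z ^ (E + ε / 2) := by
          refine (hW Z _ hZ1 ?_).trans ?_
          · intro v hv
            rw [Finset.mem_filter] at hv
            obtain ⟨t1, t2, t3, t4⟩ := base v hv.1 hv.2.1
            exact ⟨t1, t2, hv.2.2, t4⟩
          · refine mul_le_mul_of_nonneg_left ?_ (by linarith)
            refine Real.rpow_le_rpow_of_exponent_le hZ1 ?_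
            have : max (1 - θ') (3 / 5) ≤ E + ε / 4 := max_le (by linarith) (by linarith)
            linarith
        have eB : ((F.filter (fun v => Nat.log 2 (RR v) = j ∧
            ¬ θ' * Real.log Z ≤ hh v)).card : ℝ) ≤ Z ^ (E + ε / 2) := by
          by_cases hc : 1 / 3 ≤ θ - ε / 4
          · have h0 : (F.filter (fun v => Nat.log 2 (RR v) = j ∧
                ¬ θ' * Real.log Z ≤ hh v)) = ∅ := by
              rw [Finset.filter_eq_empty_iff]
              intro v hv hcon
              obtain ⟨t1, t2, t3, t4⟩ := base v hv hcon.1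
              have : θ' = θ - ε / 4 := by rw [hθ', max_eq_left hc]
              apply hcon.2
              rw [this]
              nlinarith
            rw [h0, Finset.card_empty, Nat.cast_zero]
            linarith
          · have h2 : θ' = 1 / 3 := by rw [hθ', max_eq_right (not_le.1 hc).le]
            have h3 := LDR.box (Z ^ (1 / 3 : ℝ)) (by positivity)
              (F.filter (fun v => Nat.log 2 (RR v) = j ∧ ¬ θ' * Real.log Z ≤ hh v)) (by
                intro v hv
                rw [Finset.mem_filter] at hv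
                obtain ⟨t1, t2, t3, t4⟩ := base v hv.1 hv.2.1
                refine ⟨t1, ?_⟩
                rw [hsum v t1, Real.rpow_def_of_pos hZ0]
                have h8 := hv.2.2
                rw [h2, not_le] at h8
                exact Real.exp_le_exp.2 (by linarith))
            refine h3.trans ?_
            rw [← Real.rpow_natCast, ← Real.rpow_mul hZ0.le]
            refine Real.rpow_le_rpow_of_exponent_le hZ1 ?_
            push_cast
            have := not_le.1 hc
            linarith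
        have e4 : ((F.filter (fun v => Nat.log 2 (RR v) = j)).card : ℝ) =
            ((F.filter (fun v => Nat.log 2 (RR v) = j ∧ θ' * Real.log Z ≤ hh v)).card : ℝ) +
            ((F.filter (fun v => Nat.log 2 (RR v) = j ∧
              ¬ θ' * Real.log Z ≤ hh v)).card : ℝ) := by
          rw [← Finset.filter_filter, ← Finset.filter_filter, ← Nat.cast_add,
            Finset.card_filter_add_card_filter_not]
        rw [e4]
        nlinarith [sq_nonneg Y]
      · -- small `Z`
        have h3 := LDR.box Y hY0.le (F.filter (fun v => Nat.log 2 (RR v) = j)) (by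
          intro v hv
          rw [Finset.mem_filter] at hv
          obtain ⟨t1, t2, t3, t4⟩ := base v hv.1 hv.2
          refine ⟨t1, ?_⟩
          rw [hsum v t1, hY]
          refine Real.exp_le_exp.2 (t4.trans ?_)
          refine mul_le_mul_of_nonneg_left ?_ (by linarith)
          rw [le_div_iff₀ hε]
          have := (not_le.1 hbig).le
          nlinarith)
        refine h3.trans ?_
        nlinarith [sq_nonneg Y]
    have e4 : Z ^ (E + ε / 2) ≤ (2 : ℝ) ^ (E + ε / 2) * X ^ (E + ε / 2) := by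
      rw [← Real.mul_rpow (by norm_num) hX0.le]
      exact Real.rpow_le_rpow hZ0.le hZX (by linarith)
    refine e3.trans ?_
    have h9 : 0 ≤ C + 1 + Y ^ 2 := by positivity
    refine (mul_le_mul_of_nonneg_left e4 h9).trans (le_of_eq ?_)
    rw [hM]
    ring)
  refine key.trans (le_of_eq ?_)
  rw [show E + ε / 2 + ε / 2 = max (1 - θ) (3 / 5) + ε by rw [hE]; ring]

end Pool.LDV
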